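import Mathlib

/-!
Formal limits, sums and products of integral power series, and first order recurrences.
-/

set_option autoImplicit false

namespace Pool.Agent.H381_TO

open PowerSeries Finset

/-- integral power series -/
abbrev PS : Type := PowerSeries ℤ

lemma eq_of_dvd {a b : PS} (h : ∀ k : ℕ, (X : PS) ^ k ∣ a - b) : a = b := by
  ext n
  have := (X_pow_dvd_iff.1 (h (n + 1))) n (Nat.lt_succ_self n)
  rw [map_sub] at this
  linarith

/-- the limit of a sequence of power series -/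
noncomputable def lim (s : ℕ → PS) : PS := PowerSeries.mk fun n => coeff n (s (n + 1))

/-- sequences whose `k`-th and `k+1`-st member agree modulo `X ^ k` -/
def Cau (s : ℕ → PS) : Prop := ∀ k, (X : PS) ^ k ∣ s (k + 1) - s k

lemma Cau.le {s : ℕ → PS} (h : Cau s) (k l : ℕ) (hkl : k ≤ l) : (X : PS) ^ k ∣ s l - s k := by
  obtain ⟨d, rfl⟩ := Nat.exists_eq_add_of_le hkl
  clear hkl
  induction d with
  | zero => simp
  | succ d ih =>
    have h1 : (X : PS) ^ k ∣ s (k + d + 1) - s (k + d) :=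
      (pow_dvd_pow X (Nat.le_add_right k d)).trans (h (k + d))
    have := dvd_add h1 ih
    rwa [sub_add_sub_cancel] at this

lemma lim_dvd {s : ℕ → PS} (h : Cau s) (k : ℕ) : (X : PS) ^ k ∣ lim s - s k := by
  rw [X_pow_dvd_iff]
  intro n hn
  have h1 := (X_pow_dvd_iff.1 (h.le (n + 1) k hn)) n (Nat.lt_succ_self n)
  rw [map_sub] at h1 ⊢
  unfold lim
  rw [coeff_mk]
  linarith

lemma lim_eq {s : ℕ → PS} (h : Cau s) {y : PS} (hy : ∀ k, (X : PS) ^ k ∣ y - s k) : y = lim s := by
  apply eq_of_dvd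
  intro k
  have := dvd_sub (hy k) (lim_dvd h k)
  rwa [sub_sub_sub_cancel_right] at this

lemma dvd_mul_sub {a b c d : PS} {n : ℕ} (h1 : (X : PS) ^ n ∣ a - b) (h2 : (X : PS) ^ n ∣ c - d) :
    (X : PS) ^ n ∣ a * c - b * d := by
  have e : a * c - b * d = (a - b) * c + b * (c - d) := by ring
  rw [e]
  exact dvd_add (h1.mul_right _) (h2.mul_left _)

lemma lim_mul {s t : ℕ → PS} (hs : Cau s) (ht : Cau t) :
    Cau (fun k => s k * t k) ∧ lim s * lim t = lim (fun k => s k * t k) := by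
  have h1 : Cau (fun k => s k * t k) := fun k => dvd_mul_sub (hs k) (ht k)
  exact ⟨h1, lim_eq h1 fun k => dvd_mul_sub (lim_dvd hs k) (lim_dvd ht k)⟩

/-- the sum of a family whose `m`-th member is divisible by `X ^ m` -/
noncomputable def sm (a : ℕ → PS) : PS := lim fun k => ∑ m ∈ range k, a m

/-- the divisibility condition -/
def Sb (a : ℕ → PS) : Prop := ∀ m, (X : PS) ^ m ∣ a m

lemma Sb.cau {a : ℕ → PS} (h : Sb a) : Cau (fun k => ∑ m ∈ range k, a m) := by
  intro k
  show (X : PS) ^ k ∣ ∑ m ∈ range (k + 1), a m - ∑ m ∈ range k, a m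
  rw [sum_range_succ, add_sub_cancel_left]
  exact h k

lemma sm_dvd {a : ℕ → PS} (h : Sb a) (k : ℕ) : (X : PS) ^ k ∣ sm a - ∑ m ∈ range k, a m :=
  lim_dvd h.cau k

lemma sm_eq {a : ℕ → PS} (h : Sb a) {y : PS}
    (hy : ∀ k, (X : PS) ^ k ∣ y - ∑ m ∈ range k, a m) : y = sm a := lim_eq h.cau hy

lemma coeff_sm (a : ℕ → PS) (n : ℕ) : coeff n (sm a) = ∑ m ∈ range (n + 1), coeff n (a m) := by
  unfold sm lim
  rw [coeff_mk, map_sum]

lemma sm_add (a b : ℕ → PS) : sm a + sm b = sm (fun m => a m + b m) := by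
  ext n
  rw [map_add, coeff_sm, coeff_sm, coeff_sm, ← sum_add_distrib]
  simp only [map_add]

lemma sm_sub (a b : ℕ → PS) : sm a - sm b = sm (fun m => a m - b m) := by
  ext n
  rw [map_sub, coeff_sm, coeff_sm, coeff_sm, ← sum_sub_distrib]
  simp only [map_sub]

lemma Sb.mul {a : ℕ → PS} (h : Sb a) (c : PS) : Sb (fun m => c * a m) :=
  fun m => (h m).mul_left c

lemma sm_mul {a : ℕ → PS} (h : Sb a) (c : PS) : c * sm a = sm (fun m => c * a m) := by
  refine sm_eq (h.mul c) fun k => ?_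
  rw [← mul_sum, ← mul_sub]
  exact (sm_dvd h k).mul_left c

/-- linear combination -/
lemma sm_lin {a b : ℕ → PS} (hb : Sb b) (c : PS) :
    sm a + c * sm b = sm (fun m => a m + c * b m) := by
  rw [sm_mul hb, sm_add]

lemma Sb.succ {a : ℕ → PS} (h : Sb a) : Sb (fun m => a (m + 1)) :=
  fun m => (pow_dvd_pow X (Nat.le_succ m)).trans (h (m + 1))

lemma sm_succ {a : ℕ → PS} (h : Sb a) : sm a = a 0 + sm (fun m => a (m + 1)) := by
  symm
  refine sm_eq h fun k => ?_
  rcases k with _ | k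
  · simp
  · rw [sum_range_succ', add_comm (∑ m ∈ range k, a (m + 1)), add_sub_add_left_eq_sub]
    have h1 := sm_dvd h.succ (k + 1)
    rw [sum_range_succ] at h1
    have h2 : (X : PS) ^ (k + 1) ∣ a (k + 1) := h (k + 1)
    have h3 := dvd_add h1 h2
    have e : sm (fun m => a (m + 1)) - (∑ x ∈ range k, a (x + 1) + a (k + 1)) + a (k + 1) =
        sm (fun m => a (m + 1)) - ∑ x ∈ range k, a (x + 1) := by ring
    rwa [e] at h3

lemma sm_congr {a b : ℕ → PS} (h : ∀ m, a m = b m) : sm a = sm b := by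
  rw [funext h]

lemma sm_small {a b : ℕ → PS} (j : ℕ) (h : ∀ m, (X : PS) ^ j ∣ a m - b m) :
    (X : PS) ^ j ∣ sm a - sm b := by
  rw [X_pow_dvd_iff]
  intro n hn
  rw [map_sub, coeff_sm, coeff_sm, ← sum_sub_distrib]
  refine sum_eq_zero fun m _ => ?_
  have := (X_pow_dvd_iff.1 (h m)) n hn
  rwa [map_sub] at this

lemma lim_small {s t : ℕ → PS} (j : ℕ) (h : ∀ k, (X : PS) ^ j ∣ s k - t k) :
    (X : PS) ^ j ∣ lim s - lim t := by
  rw [X_pow_dvd_iff]
  intro n hn
  unfold lim
  rw [map_sub, coeff_mk, coeff_mk]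
  have := (X_pow_dvd_iff.1 (h (n + 1))) n hn
  rwa [map_sub] at this

/-- solution of a first order recurrence by a sum -/
lemma rec_sum (Y a : ℕ → PS) (D : ℕ → ℕ) (hD0 : D 0 = 0) (hD : ∀ n, n ≤ D n)
    (h : ∀ n, (X : PS) ^ D n * Y n = X ^ D n * a n + X ^ D (n + 1) * Y (n + 1)) :
    Y 0 = sm (fun n => X ^ D n * a n) := by
  have hs : Sb (fun n => (X : PS) ^ D n * a n) := fun n =>
    (pow_dvd_pow X (hD n)).mul_right _
  refine sm_eq hs fun k => ?_
  have key : ∀ k, Y 0 - ∑ n ∈ range k, (X : PS) ^ D n * a n = X ^ D k * Y k := by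
    intro k
    induction k with
    | zero => simp [hD0]
    | succ k ih =>
      rw [sum_range_succ, ← sub_sub, ih, h k]
      ring
  rw [key]
  exact (pow_dvd_pow X (hD k)).mul_right _

/-! ### inverses -/

/-- the inverse of `1 - e X ^ n` -/
noncomputable def gi (e : PS) (n : ℕ) : PS := invOfUnit (1 - e * X ^ n) 1

lemma gi_mul (e : PS) {n : ℕ} (hn : 1 ≤ n) : (1 - e * X ^ n) * gi e n = 1 := by
  apply mul_invOfUnit
  rw [map_sub, map_mul, map_pow, constantCoeff_X, zero_pow (by omega)]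
  simp

lemma unit_dvd (e : PS) {n : ℕ} (hn : 1 ≤ n) {k : ℕ} {y : PS}
    (h : (X : PS) ^ k ∣ (1 - e * X ^ n) * y) : (X : PS) ^ k ∣ y := by
  have h1 := h.mul_left (gi e n)
  rwa [← mul_assoc, mul_comm (gi e n), gi_mul e hn, one_mul] at h1

/-! ### converging families -/

/-- convergence -/
def CV (y : ℕ → PS) : Prop := ∃ L : PS, ∀ j, (X : PS) ^ j ∣ y j - L

lemma CV.add {y z : ℕ → PS} (hy : CV y) (hz : CV z) : CV (fun j => y j + z j) := by
  obtain ⟨L, hL⟩ := hy
  obtain ⟨M, hM⟩ := hz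
  refine ⟨L + M, fun j => ?_⟩
  have := dvd_add (hL j) (hM j)
  rwa [sub_add_sub_comm] at this

lemma CV.mul {y z : ℕ → PS} (hy : CV y) (hz : CV z) : CV (fun j => y j * z j) := by
  obtain ⟨L, hL⟩ := hy
  obtain ⟨M, hM⟩ := hz
  exact ⟨L * M, fun j => dvd_mul_sub (hL j) (hM j)⟩

lemma CV.const (c : PS) : CV (fun _ => c) := ⟨c, fun j => by simp⟩

/-- a convergent family with an alternating recurrence vanishes -/
lemma alt_zero {D : ℕ → PS} (hD : CV D)
    (h : ∀ j, (1 + (X : PS) ^ (2 * j + 1)) * D j + (1 + X ^ (2 * j + 2)) * D (j + 1) = 0) :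
    ∀ j, D j = 0 := by
  obtain ⟨L, hL⟩ := hD
  have hL0 : L = 0 := by
    have h2 : ∀ k : ℕ, (X : PS) ^ k ∣ 2 * L - 0 := by
      intro k
      have h3 : (X : PS) ^ k ∣ D (k + 1) - L := (pow_dvd_pow X (Nat.le_succ k)).trans (hL (k + 1))
      have h4 : (X : PS) ^ k ∣ X ^ (2 * k + 1) * D k :=
        (pow_dvd_pow X (by omega)).mul_right _
      have h5 : (X : PS) ^ k ∣ X ^ (2 * k + 2) * D (k + 1) :=
        (pow_dvd_pow X (by omega)).mul_right _
      have e : 2 * L - 0 = -((D k - L) + (D (k + 1) - L) + X ^ (2 * k + 1) * D k +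
          X ^ (2 * k + 2) * D (k + 1)) := by
        linear_combination h k
      rw [e, dvd_neg]
      exact dvd_add (dvd_add (dvd_add (hL k) h3) h4) h5
    have h6 := eq_of_dvd h2
    ext n
    have h7 := congrArg (coeff n) h6
    have e : (2 : PS) * L = L + L := two_mul L
    rw [e, map_add, map_zero] at h7
    rw [map_zero]
    omega
  have hdv : ∀ k j, (X : PS) ^ (j + k) ∣ D j := by
    intro k
    induction k with
    | zero =>
      intro j
      have := hL j
      rwa [hL0, sub_zero] at this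
    | succ k ih =>
      intro j
      have h1 : (X : PS) ^ (j + (k + 1)) ∣ D (j + 1) := by
        have := ih (j + 1)
        rwa [show j + 1 + k = j + (k + 1) by ring] at this
      have h2 : (X : PS) ^ (j + (k + 1)) ∣ (1 - (-1) * (X : PS) ^ (2 * j + 1)) * D j := by
        have e : (1 - (-1) * (X : PS) ^ (2 * j + 1)) * D j = -((1 + X ^ (2 * j + 2)) * D (j + 1)) := by
          linear_combination h j
        rw [e, dvd_neg]
        exact h1.mul_left _
      exact unit_dvd _ (by omega) h2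
  intro j
  refine eq_of_dvd fun k => ?_
  rw [sub_zero]
  exact (pow_dvd_pow X (Nat.le_add_left k j)).trans (hdv k j)

/-- a contracting recurrence has only the zero solution -/
lemma contr_zero {Z : ℕ → PS} (c : ℕ → PS) (e : PS)
    (h : ∀ n, (1 - e * (X : PS) ^ (2 * n + 1)) * Z n = X * c n * Z (n + 1)) : ∀ n, Z n = 0 := by
  have hdv : ∀ k n, (X : PS) ^ k ∣ Z n := by
    intro k
    induction k with
    | zero => intro n; simp
    | succ k ih =>
      intro n
      refine unit_dvd e (n := 2 * n + 1) (by omega) ?_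
      rw [h n, pow_succ, mul_comm (X ^ k) X, mul_assoc]
      exact mul_dvd_mul_left X ((ih (n + 1)).mul_left _)
  intro n
  refine eq_of_dvd fun k => ?_
  rw [sub_zero]
  exact hdv k n

end Pool.Agent.H381_TO
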