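import Pool.Agent.H381_TO.Base

/-!
The families of q-series and their contiguous relations.
-/

set_option autoImplicit false

namespace Pool.Agent.H381_TO

open PowerSeries Finset

lemma pow_even_mul (n : ℕ) (k : ℕ) : (X : PS) ^ (n * k) = (X ^ n) ^ k := pow_mul X n k

/-! ### the family `H` -/

/-- the coefficients -/
noncomputable def rho (e : PS) (r k : ℕ) : PS :=
  ∏ i ∈ range k, ((1 - e * X ^ (2 * r + 1 + 2 * i)) * gi e (2 * r + 2 + 2 * i))

lemma rho_zero (e : PS) (r : ℕ) : rho e r 0 = 1 := rfl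

lemma rho_succ (e : PS) (r k : ℕ) : rho e r (k + 1) * (1 - e * X ^ (2 * r + 2 + 2 * k)) =
    rho e r k * (1 - e * X ^ (2 * r + 1 + 2 * k)) := by
  unfold rho
  rw [prod_range_succ]
  linear_combination (∏ i ∈ range k, ((1 - e * X ^ (2 * r + 1 + 2 * i)) *
    gi e (2 * r + 2 + 2 * i))) * (1 - e * X ^ (2 * r + 1 + 2 * k)) *
    gi_mul e (n := 2 * r + 2 + 2 * k) (by omega)

lemma rho_succ' (e : PS) (r k : ℕ) : rho e r (k + 1) =
    (1 - e * X ^ (2 * r + 1)) * gi e (2 * r + 2) * rho e (r + 1) k := by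
  unfold rho
  rw [prod_range_succ']
  rw [mul_comm]
  congr 1
  refine prod_congr rfl fun i _ => ?_
  rw [show 2 * r + 1 + 2 * (i + 1) = 2 * (r + 1) + 1 + 2 * i by ring,
    show 2 * r + 2 + 2 * (i + 1) = 2 * (r + 1) + 2 + 2 * i by ring]

/-- the terms of `H` -/
noncomputable def ht (e : PS) (r s k : ℕ) : PS := e ^ k * X ^ ((2 * s + 1) * k) * rho e r k

/-- the family `H` -/
noncomputable def H (e : PS) (r s : ℕ) : PS := sm (ht e r s)

lemma ht_sb (e : PS) (r s : ℕ) : Sb (ht e r s) := by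
  intro m
  unfold ht
  rw [mul_assoc]
  exact ((pow_dvd_pow X (Nat.le_mul_of_pos_left m (by omega))).mul_right _).mul_left _

lemma ht_zero (e : PS) (r s : ℕ) : ht e r s 0 = 1 := by simp [ht, rho_zero]

lemma ht_next (e : PS) (r s k : ℕ) : ht e r (s + 1) k = X ^ (2 * k) * ht e r s k := by
  unfold ht
  rw [show (2 * (s + 1) + 1) * k = 2 * k + (2 * s + 1) * k by ring, pow_add]
  ring

lemma H_c (e : PS) (r s : ℕ) : H e r s - e * X ^ (2 * r) * H e r (s + 1) =
    (1 - e * X ^ (2 * r)) + e * X ^ (2 * s + 1) * (H e r s - e * X ^ (2 * r + 1) * H e r (s + 1)) := by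
  have hb := ht_sb e r (s + 1)
  have h1 : H e r s - e * X ^ (2 * r) * H e r (s + 1) =
      sm (fun k => ht e r s k * (1 - e * X ^ (2 * r + 2 * k))) := by
    have e1 : H e r s - e * X ^ (2 * r) * H e r (s + 1) =
        H e r s + (-(e * X ^ (2 * r))) * H e r (s + 1) := by ring
    rw [e1]
    unfold H
    rw [sm_lin hb]
    refine sm_congr fun k => ?_
    rw [ht_next, pow_add]
    ring
  have h2 : H e r s - e * X ^ (2 * r + 1) * H e r (s + 1) =
      sm (fun k => ht e r s k * (1 - e * X ^ (2 * r + 1 + 2 * k))) := by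
    have e1 : H e r s - e * X ^ (2 * r + 1) * H e r (s + 1) =
        H e r s + (-(e * X ^ (2 * r + 1))) * H e r (s + 1) := by ring
    rw [e1]
    unfold H
    rw [sm_lin hb]
    refine sm_congr fun k => ?_
    rw [ht_next, pow_add _ (2 * r + 1) (2 * k)]
    ring
  have hs : Sb (fun k => ht e r s k * (1 - e * X ^ (2 * r + 2 * k))) := fun m =>
    (ht_sb e r s m).mul_right _
  have hs2 : Sb (fun k => ht e r s k * (1 - e * X ^ (2 * r + 1 + 2 * k))) := fun m =>
    (ht_sb e r s m).mul_right _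
  rw [h1, h2, sm_succ hs, sm_mul hs2]
  congr 1
  · rw [ht_zero, mul_zero, add_zero, one_mul]
  · refine sm_congr fun k => ?_
    have h3 := rho_succ e r k
    unfold ht
    rw [show 2 * r + 2 * (k + 1) = 2 * r + 2 + 2 * k by ring,
      show (2 * s + 1) * (k + 1) = (2 * s + 1) + (2 * s + 1) * k by ring, pow_add _ (2 * s + 1),
      pow_succ]
    linear_combination e ^ k * e * (X ^ (2 * s + 1) * X ^ ((2 * s + 1) * k)) * h3

lemma H_d (e : PS) (r s : ℕ) : H e r s =
    1 + e * X ^ (2 * s + 1) * ((1 - e * X ^ (2 * r + 1)) * gi e (2 * r + 2)) * H e (r + 1) s := by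
  have hs := ht_sb e r s
  have h1 : H e r s = ht e r s 0 + sm (fun m => ht e r s (m + 1)) := sm_succ hs
  rw [h1, ht_zero]
  congr 1
  unfold H
  rw [sm_mul (ht_sb e (r + 1) s)]
  refine sm_congr fun k => ?_
  unfold ht
  rw [rho_succ', show (2 * s + 1) * (k + 1) = (2 * s + 1) + (2 * s + 1) * k by ring, pow_add,
    pow_succ]
  ring

/-- the diagonal recurrence -/
lemma H_diag (e : PS) (he : e * e = 1) (n : ℕ) :
    H e n n = (1 + e * X ^ (2 * n + 1)) + X ^ (4 * n + 3) * H e (n + 1) (n + 1) := by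
  have h1 := H_c e n n
  have h2 := H_d e n (n + 1)
  have h3 := gi_mul e (n := 2 * n + 2) (by omega)
  have key : (1 - e * X ^ (2 * n + 1)) * H e n n = (1 - e * X ^ (2 * n + 1)) *
      ((1 + e * X ^ (2 * n + 1)) + X ^ (4 * n + 3) * H e (n + 1) (n + 1)) := by
    rw [show 2 * (n + 1) + 1 = 2 * n + 3 by ring] at h2
    have p1 : (X : PS) ^ (2 * n + 1) = X ^ (2 * n) * X := pow_succ _ _
    have p2 : (X : PS) ^ (2 * n + 2) = X ^ (2 * n) * X ^ 2 := pow_add _ _ _
    have p3 : (X : PS) ^ (2 * n + 3) = X ^ (2 * n) * X ^ 3 := pow_add _ _ _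
    have p4 : (X : PS) ^ (4 * n + 3) = X ^ (2 * n) * X ^ (2 * n) * X ^ 3 := by
      rw [← pow_add, ← pow_add]
      congr 1
      ring
    rw [p1] at h1
    rw [p1, p3] at h2
    rw [p2] at h3
    rw [p1, p4]
    rw [h2] at h1
    clear h2 p1 p2 p3 p4
    generalize (X : PS) ^ (2 * n) = q at *
    generalize H e (n + 1) (n + 1) = A at *
    generalize H e n n = C at *
    generalize gi e (2 * n + 2) = g at *
    linear_combination h1 + (e ^ 2 * q ^ 2 * X ^ 3 * (1 - e * q * X) * A) * h3 +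
      (q ^ 2 * X ^ 3 * (1 - e * q * X) * A) * he
  have h4 : (1 - e * (X : PS) ^ (2 * n + 1)) ≠ 0 := by
    intro h
    have h5 := gi_mul e (n := 2 * n + 1) (by omega)
    rw [h, zero_mul] at h5
    exact zero_ne_one h5
  exact mul_left_cancel₀ h4 key

/-- the exponents `n (2 n + 1)` -/
lemma H_sum (e : PS) (he : e * e = 1) :
    H e 0 0 = sm (fun n => X ^ (n * (2 * n + 1)) * (1 + e * X ^ (2 * n + 1))) := by
  refine rec_sum (fun n => H e n n) (fun n => 1 + e * X ^ (2 * n + 1)) (fun n => n * (2 * n + 1))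
    (by simp) (fun n => Nat.le_mul_of_pos_right n (by omega)) fun n => ?_
  rw [show (n + 1) * (2 * (n + 1) + 1) = n * (2 * n + 1) + (4 * n + 3) by ring, pow_add,
    H_diag e he n]
  ring

/-! ### the family `F` -/

/-- the coefficients -/
noncomputable def del (r k : ℕ) : PS := ∏ i ∈ range k, gi (-1) (2 * r + 2 + 2 * i)

lemma del_zero (r : ℕ) : del r 0 = 1 := rfl

lemma del_succ (r k : ℕ) : del r (k + 1) * (1 - (-1) * X ^ (2 * r + 2 + 2 * k)) = del r k := by
  unfold del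
  rw [prod_range_succ]
  linear_combination (∏ i ∈ range k, gi (-1) (2 * r + 2 + 2 * i)) *
    gi_mul (-1) (n := 2 * r + 2 + 2 * k) (by omega)

lemma del_succ' (r k : ℕ) : del r (k + 1) = gi (-1) (2 * r + 2) * del (r + 1) k := by
  unfold del
  rw [prod_range_succ', mul_comm]
  congr 1
  refine prod_congr rfl fun i _ => ?_
  rw [show 2 * r + 2 + 2 * (i + 1) = 2 * (r + 1) + 2 + 2 * i by ring]

/-- the terms of `F` -/
noncomputable def ft (r s k : ℕ) : PS := (-1) ^ k * X ^ ((2 * s + 1) * k) * del r k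

/-- the family `F` -/
noncomputable def F (r s : ℕ) : PS := sm (ft r s)

lemma ft_sb (r s : ℕ) : Sb (ft r s) := by
  intro m
  unfold ft
  rw [mul_assoc]
  exact ((pow_dvd_pow X (Nat.le_mul_of_pos_left m (by omega))).mul_right _).mul_left _

lemma ft_zero (r s : ℕ) : ft r s 0 = 1 := by simp [ft, del_zero]

lemma ft_next (r s k : ℕ) : ft r (s + 1) k = X ^ (2 * k) * ft r s k := by
  unfold ft
  rw [show (2 * (s + 1) + 1) * k = 2 * k + (2 * s + 1) * k by ring, pow_add]
  ring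

lemma F_a (r s : ℕ) : F r s + X ^ (2 * r) * F r (s + 1) =
    (1 + X ^ (2 * r)) - X ^ (2 * s + 1) * F r s := by
  have h1 : F r s + X ^ (2 * r) * F r (s + 1) =
      sm (fun k => ft r s k * (1 - (-1) * X ^ (2 * r + 2 * k))) := by
    unfold F
    rw [sm_lin (ft_sb r (s + 1))]
    refine sm_congr fun k => ?_
    rw [ft_next, pow_add]
    ring
  have hs : Sb (fun k => ft r s k * (1 - (-1) * X ^ (2 * r + 2 * k))) := fun m =>
    (ft_sb r s m).mul_right _
  have e1 : (1 + X ^ (2 * r)) - X ^ (2 * s + 1) * F r s =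
      (1 + X ^ (2 * r)) + (-X ^ (2 * s + 1)) * F r s := by ring
  rw [h1, e1, sm_succ hs]
  unfold F
  rw [sm_mul (ft_sb r s)]
  congr 1
  · rw [ft_zero, mul_zero, add_zero]
    ring
  · refine sm_congr fun k => ?_
    have h3 := del_succ r k
    unfold ft
    rw [show 2 * r + 2 * (k + 1) = 2 * r + 2 + 2 * k by ring,
      show (2 * s + 1) * (k + 1) = (2 * s + 1) + (2 * s + 1) * k by ring, pow_add _ (2 * s + 1),
      pow_succ]
    linear_combination (-(-1) ^ k) * (X ^ (2 * s + 1) * X ^ ((2 * s + 1) * k)) * h3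

lemma F_b (r s : ℕ) : F r s = 1 - X ^ (2 * s + 1) * gi (-1) (2 * r + 2) * F (r + 1) s := by
  have h1 : F r s = ft r s 0 + sm (fun m => ft r s (m + 1)) := sm_succ (ft_sb r s)
  have e1 : 1 - X ^ (2 * s + 1) * gi (-1) (2 * r + 2) * F (r + 1) s =
      1 + (-(X ^ (2 * s + 1) * gi (-1) (2 * r + 2))) * F (r + 1) s := by ring
  rw [h1, ft_zero, e1]
  congr 1
  unfold F
  rw [sm_mul (ft_sb (r + 1) s)]
  refine sm_congr fun k => ?_
  unfold ft
  rw [del_succ', show (2 * s + 1) * (k + 1) = (2 * s + 1) + (2 * s + 1) * k by ring, pow_add,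
    pow_succ]
  ring

lemma F_diag (n : ℕ) : (1 + X ^ (2 * n + 1)) * F n n =
    1 + X ^ (4 * n + 3) * gi (-1) (2 * n + 2) * F (n + 1) (n + 1) := by
  have h1 := F_a n n
  have h2 := F_b n (n + 1)
  have p4 : (X : PS) ^ (4 * n + 3) = X ^ (2 * n) * X ^ (2 * (n + 1) + 1) := by
    rw [← pow_add]
    congr 1
    ring
  rw [p4]
  linear_combination h1 - X ^ (2 * n) * h2

/-! ### the family `G` -/

/-- triangular numbers -/
def tri : ℕ → ℕ
  | 0 => 0
  | (k + 1) => tri k + (k + 1)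

lemma le_tri (k : ℕ) : k ≤ tri k := by
  induction k with
  | zero => exact le_rfl
  | succ k ih =>
    show k + 1 ≤ tri k + (k + 1)
    omega

/-- the coefficients -/
noncomputable def gam (r k : ℕ) : PS := ∏ i ∈ range k, gi (-1) (r + 1 + i)

lemma gam_zero (r : ℕ) : gam r 0 = 1 := rfl

lemma gam_succ (r k : ℕ) : gam r (k + 1) * (1 - (-1) * X ^ (r + 1 + k)) = gam r k := by
  unfold gam
  rw [prod_range_succ]
  linear_combination (∏ i ∈ range k, gi (-1) (r + 1 + i)) *
    gi_mul (-1) (n := r + 1 + k) (by omega)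

lemma gam_succ' (r k : ℕ) : gam r (k + 1) = gi (-1) (r + 1) * gam (r + 1) k := by
  unfold gam
  rw [prod_range_succ', mul_comm]
  congr 1
  refine prod_congr rfl fun i _ => ?_
  rw [show r + 1 + (i + 1) = r + 1 + 1 + i by ring]

/-- the terms of `G` -/
noncomputable def gt (s r k : ℕ) : PS := (-1) ^ k * X ^ (s * k + tri k) * gam r k

/-- the family `G` -/
noncomputable def G (s r : ℕ) : PS := sm (gt s r)

lemma gt_sb (s r : ℕ) : Sb (gt s r) := by
  intro m
  unfold gt
  rw [mul_assoc]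
  exact ((pow_dvd_pow X (by have := le_tri m; omega)).mul_right _).mul_left _

lemma gt_zero (s r : ℕ) : gt s r 0 = 1 := by simp [gt, gam_zero, tri]

lemma gt_next (s r k : ℕ) : gt (s + 1) r k = X ^ k * gt s r k := by
  unfold gt
  rw [show (s + 1) * k + tri k = k + (s * k + tri k) by ring, pow_add]
  ring

lemma G_1 (s r : ℕ) : G s r = (1 + X ^ r) - (X ^ (s + 1) + X ^ r) * G (s + 1) r := by
  have h1 : G s r + X ^ r * G (s + 1) r = sm (fun k => gt s r k * (1 - (-1) * X ^ (r + k))) := by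
    unfold G
    rw [sm_lin (gt_sb (s + 1) r)]
    refine sm_congr fun k => ?_
    rw [gt_next, pow_add]
    ring
  have hs : Sb (fun k => gt s r k * (1 - (-1) * X ^ (r + k))) := fun m =>
    (gt_sb s r m).mul_right _
  have h2 : G s r + X ^ r * G (s + 1) r = (1 + X ^ r) + (-X ^ (s + 1)) * G (s + 1) r := by
    rw [h1, sm_succ hs]
    unfold G
    rw [sm_mul (gt_sb (s + 1) r)]
    congr 1
    · rw [gt_zero, add_zero]
      ring
    · refine sm_congr fun k => ?_
      have h3 := gam_succ r k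
      unfold gt
      rw [show r + (k + 1) = r + 1 + k by ring,
        show s * (k + 1) + tri (k + 1) = (s + 1) + ((s + 1) * k + tri k) by
          show s * (k + 1) + (tri k + (k + 1)) = _
          ring, pow_add _ (s + 1), pow_succ]
      linear_combination (-(-1) ^ k) * (X ^ (s + 1) * X ^ ((s + 1) * k + tri k)) * h3
  linear_combination h2

lemma G_2 (s r : ℕ) : G s r = 1 - X ^ (s + 1) * gi (-1) (r + 1) * G (s + 1) (r + 1) := by
  have h1 : G s r = gt s r 0 + sm (fun m => gt s r (m + 1)) := sm_succ (gt_sb s r)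
  have e1 : 1 - X ^ (s + 1) * gi (-1) (r + 1) * G (s + 1) (r + 1) =
      1 + (-(X ^ (s + 1) * gi (-1) (r + 1))) * G (s + 1) (r + 1) := by ring
  rw [h1, gt_zero, e1]
  congr 1
  unfold G
  rw [sm_mul (gt_sb (s + 1) (r + 1))]
  refine sm_congr fun k => ?_
  unfold gt
  rw [gam_succ', show s * (k + 1) + tri (k + 1) = (s + 1) + ((s + 1) * k + tri k) by
          show s * (k + 1) + (tri k + (k + 1)) = _
          ring, pow_add, pow_succ]
  ring

lemma G_diag (n : ℕ) : (1 + X ^ (2 * n + 1)) * G (2 * n) (2 * n) =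
    1 + X ^ (4 * n + 3) * gi (-1) (2 * n + 2) * G (2 * (n + 1)) (2 * (n + 1)) := by
  have h1 := G_2 (2 * n) (2 * n)
  have h2 := G_2 (2 * n + 1) (2 * n + 1)
  have h3 := gi_mul (-1) (n := 2 * n + 1) (by omega)
  have p4 : (X : PS) ^ (4 * n + 3) = X ^ (2 * n + 1) * X ^ (2 * n + 1 + 1) := by
    rw [← pow_add]
    congr 1
    ring
  rw [p4]
  rw [show 2 * (n + 1) = 2 * n + 1 + 1 by ring]
  rw [show 2 * n + 2 = 2 * n + 1 + 1 by ring]
  linear_combination (1 + X ^ (2 * n + 1)) * h1 - X ^ (2 * n + 1) * G (2 * n + 1) (2 * n + 1) * h3 -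
    X ^ (2 * n + 1) * h2

lemma G_half (n : ℕ) : G (2 * n) n =
    (1 - X ^ (2 * n + 1)) + X ^ (3 * n + 2) * G (2 * (n + 1)) (n + 1) := by
  have h1 := G_2 (2 * n) n
  have h2 := G_1 (2 * n + 1) (n + 1)
  have h3 := gi_mul (-1) (n := n + 1) (by omega)
  have p2 : (X : PS) ^ (3 * n + 2) = X ^ (2 * n + 1) * X ^ (n + 1) := by
    rw [← pow_add]
    congr 1
    ring
  have p3 : (X : PS) ^ (2 * n + 1 + 1) = X ^ (n + 1) * X ^ (n + 1) := by
    rw [← pow_add]
    congr 1
    ring
  rw [p3] at h2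
  rw [p2, show 2 * (n + 1) = 2 * n + 1 + 1 by ring]
  linear_combination h1 - X ^ (2 * n + 1) * gi (-1) (n + 1) * h2 -
    X ^ (2 * n + 1) * (1 - X ^ (n + 1) * G (2 * n + 1 + 1) (n + 1)) * h3

lemma F_eq_G (n : ℕ) : F n n = G (2 * n) (2 * n) := by
  have := contr_zero (Z := fun n => F n n - G (2 * n) (2 * n))
    (fun n => X ^ (4 * n + 2) * gi (-1) (2 * n + 2)) (-1) (fun n => by
      have h1 := F_diag n
      have h2 := G_diag n
      have p : (X : PS) ^ (4 * n + 3) = X * X ^ (4 * n + 2) := by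
        rw [← pow_succ']
      rw [p] at h1 h2
      linear_combination h1 - h2) n
  exact sub_eq_zero.1 this

/-- the exponents `n (3 n + 1) / 2` -/
def pe : ℕ → ℕ
  | 0 => 0
  | (n + 1) => pe n + (3 * n + 2)

lemma two_pe (n : ℕ) : 2 * pe n = n * (3 * n + 1) := by
  induction n with
  | zero => rfl
  | succ n ih =>
    show 2 * (pe n + (3 * n + 2)) = _
    rw [mul_add, ih]
    ring

lemma le_pe (n : ℕ) : n ≤ pe n := by
  have := two_pe n
  nlinarith

lemma F_sum : F 0 0 = sm (fun n => X ^ pe n * (1 - X ^ (2 * n + 1))) := by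
  rw [F_eq_G 0]
  exact rec_sum (fun n => G (2 * n) n) (fun n => 1 - X ^ (2 * n + 1)) pe rfl le_pe (fun n => by
    show X ^ pe n * G (2 * n) n = X ^ pe n * (1 - X ^ (2 * n + 1)) +
      X ^ (pe n + (3 * n + 2)) * G (2 * (n + 1)) (n + 1)
    rw [G_half n, pow_add]
    ring)

end Pool.Agent.H381_TO
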