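import Pool.Agent.H381_TO.Tpart

/-!
Products, the pentagonal number theorem, Gauss, and the identity
`q T_o = (-q;q)^2 A + B`.
-/

set_option autoImplicit false

namespace Pool.Agent.H381_TO

open PowerSeries Finset

/-! ### products -/

noncomputable def Em (k : ℕ) : PS := ∏ m ∈ range k, (1 - X ^ (m + 1))
noncomputable def Pm (k : ℕ) : PS := ∏ m ∈ range k, (1 + X ^ (m + 1))
noncomputable def Om (k : ℕ) : PS := ∏ m ∈ range k, (1 - X ^ (2 * m + 1))
noncomputable def Vm (k : ℕ) : PS := ∏ m ∈ range k, (1 - X ^ (2 * m + 2))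

lemma Em_succ (k : ℕ) : Em (k + 1) = Em k * (1 - X ^ (k + 1)) := prod_range_succ _ _
lemma Pm_succ (k : ℕ) : Pm (k + 1) = Pm k * (1 + X ^ (k + 1)) := prod_range_succ _ _
lemma Om_succ (k : ℕ) : Om (k + 1) = Om k * (1 - X ^ (2 * k + 1)) := prod_range_succ _ _
lemma Vm_succ (k : ℕ) : Vm (k + 1) = Vm k * (1 - X ^ (2 * k + 2)) := prod_range_succ _ _

lemma Em_cau : Cau Em := by
  intro k
  have e : Em (k + 1) - Em k = X ^ (k + 1) * (-Em k) := by rw [Em_succ]; ring
  rw [e]
  exact (pow_dvd_pow X (by omega)).mul_right _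

lemma Pm_cau : Cau Pm := by
  intro k
  have e : Pm (k + 1) - Pm k = X ^ (k + 1) * Pm k := by rw [Pm_succ]; ring
  rw [e]
  exact (pow_dvd_pow X (by omega)).mul_right _

lemma Om_cau : Cau Om := by
  intro k
  have e : Om (k + 1) - Om k = X ^ (2 * k + 1) * (-Om k) := by rw [Om_succ]; ring
  rw [e]
  exact (pow_dvd_pow X (by omega)).mul_right _

lemma Vm_cau : Cau Vm := by
  intro k
  have e : Vm (k + 1) - Vm k = X ^ (2 * k + 2) * (-Vm k) := by rw [Vm_succ]; ring
  rw [e]
  exact (pow_dvd_pow X (by omega)).mul_right _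

lemma lim_two {s : ℕ → PS} (h : Cau s) (k : ℕ) : (X : PS) ^ k ∣ lim s - s (2 * k) :=
  (pow_dvd_pow X (by omega : k ≤ 2 * k)).trans (lim_dvd h (2 * k))

lemma Em_two (k : ℕ) : Em (2 * k) = Om k * Vm k := by
  induction k with
  | zero => simp [Em, Om, Vm]
  | succ k ih =>
    rw [show 2 * (k + 1) = 2 * k + 1 + 1 by ring, Em_succ, Em_succ, ih, Om_succ, Vm_succ]
    ring

lemma PE_V (k : ℕ) : Pm k * Em k = Vm k := by
  induction k with
  | zero => simp [Em, Pm, Vm]
  | succ k ih =>
    rw [Em_succ, Pm_succ, Vm_succ, ← ih, show 2 * k + 2 = (k + 1) + (k + 1) by ring, pow_add]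
    ring

lemma eO_P (k : ℕ) : ee 0 k * Om k = Pm (2 * k) := by
  induction k with
  | zero => simp [ee_zero, Om, Pm]
  | succ k ih =>
    have h := gi_mul 1 (n := 2 * k + 1) (by omega)
    rw [show 2 * (k + 1) = 2 * k + 1 + 1 by ring, Pm_succ, Pm_succ, ← ih, ee_succ, Om_succ,
      show 2 * 0 + 2 + 2 * k = 2 * k + 1 + 1 by ring]
    linear_combination ee 0 k * Om k * (1 + X ^ (2 * k + 1)) * (1 + X ^ (2 * k + 1 + 1)) * h

noncomputable def E : PS := lim Em
noncomputable def P : PS := lim Pm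
noncomputable def O : PS := lim Om
noncomputable def V : PS := lim Vm

lemma E_eq : E = O * V := by
  have h := lim_mul Om_cau Vm_cau
  unfold O V
  rw [h.2]
  refine lim_eq h.1 fun k => ?_
  rw [← Em_two]
  exact lim_two Em_cau k

lemma PE_eq : P * E = V := by
  unfold P E V
  rw [(lim_mul Pm_cau Em_cau).2]
  congr 1
  funext k
  exact PE_V k

lemma WO_eq : Ei 0 * O = P := by
  have h := lim_mul (ee_cau 0) Om_cau
  unfold Ei O
  rw [h.2]
  symm
  refine lim_eq h.1 fun k => ?_
  rw [eO_P]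
  exact lim_two Pm_cau k

lemma H_one (e : PS) (j : ℕ) : (X : PS) ^ j ∣ H e 0 j - 1 := by
  rw [H_d e 0 j]
  have e1 : 1 + e * X ^ (2 * j + 1) * ((1 - e * X ^ (2 * 0 + 1)) * gi e (2 * 0 + 2)) * H e (0 + 1) j - 1 =
      X ^ (2 * j + 1) * (e * ((1 - e * X ^ (2 * 0 + 1)) * gi e (2 * 0 + 2)) * H e (0 + 1) j) := by
    ring
  rw [e1]
  exact (pow_dvd_pow X (by omega)).mul_right _

lemma H1_prod (k : ℕ) : H 1 0 0 * Om k = Vm k * H 1 0 k := by
  induction k with
  | zero => simp [Om, Vm]
  | succ k ih =>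
    have h := H_c 1 0 k
    simp only [mul_zero, pow_zero, zero_add, pow_one, mul_one, one_mul] at h
    rw [Om_succ, Vm_succ, ← mul_assoc, ih]
    have p1 : (X : PS) ^ (2 * k + 2) = X ^ (2 * k + 1) * X := pow_succ _ _
    rw [p1]
    linear_combination Vm k * h

lemma SO_eq : H 1 0 0 * O = V := by
  refine lim_eq Vm_cau fun k => ?_
  have h1 := (lim_dvd Om_cau k).mul_left (H 1 0 0)
  have h2 := (H_one 1 k).mul_left (Vm k)
  have h3 := dvd_add h1 h2
  have e : H 1 0 0 * (lim Om - Om k) + Vm k * (H 1 0 k - 1) = H 1 0 0 * O - Vm k := by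
    unfold O
    linear_combination -(H1_prod k)
  rwa [e] at h3

lemma V_ne : V ≠ 0 := by
  intro h
  have h1 := congrArg (coeff 0) h
  unfold V lim at h1
  rw [coeff_mk, map_zero] at h1
  unfold Vm at h1
  rw [prod_range_succ, prod_range_zero] at h1
  simp at h1

lemma PO_eq : P * O = 1 := by
  have h : (P * O) * V = 1 * V := by
    rw [one_mul, mul_assoc, ← E_eq, PE_eq]
  exact mul_right_cancel₀ V_ne h

lemma W_eq : Ei 0 = P * P := by
  linear_combination (-Ei 0) * PO_eq + P * WO_eq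

/-- Gauss -/
lemma gauss : P * P * E = H 1 0 0 := by
  linear_combination P * PE_eq - P * SO_eq + H 1 0 0 * PO_eq

/-! ### topology -/

section top

open scoped PowerSeries.WithPiTopology

lemma hasSum_sm {a : ℕ → PS} (h : Sb a) : HasSum a (sm a) := by
  rw [HasSum, PowerSeries.WithPiTopology.tendsto_iff_coeff_tendsto]
  intro n
  apply tendsto_nhds_of_eventually_eq
  filter_upwards [Filter.eventually_ge_atTop (range (n + 1))] with s hs
  rw [map_sum, coeff_sm]
  symm
  refine sum_subset hs fun m _ hm => ?_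
  rw [mem_range, not_lt] at hm
  exact (X_pow_dvd_iff.1 (h m)) n (by omega)

lemma penta_sb : Sb (fun n => (-1) ^ n * ((X : PS) ^ pe n * (1 - X ^ (2 * n + 1)))) := fun n =>
  ((pow_dvd_pow X (le_pe n)).mul_right _).mul_left _

lemma penta_eq : pentagonalSeries ℤ = sm (fun n => (-1) ^ n * (X ^ pe n * (1 - X ^ (2 * n + 1)))) := by
  have h1 := PowerSeries.WithPiTopology.hasSum_pow_pentagonal_sub_pentagonalSeries ℤ
  have h2 := hasSum_sm penta_sb
  have e : (fun k : ℕ => (-1) ^ k * ((X : PS) ^ pentagonal (-k) - X ^ pentagonal (k + 1))) =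
      fun n => (-1) ^ n * ((X : PS) ^ pe n * (1 - X ^ (2 * n + 1))) := by
    funext k
    have h3 : pentagonal (-(k : ℤ)) = pe k := by
      have h4 := two_mul_natCast_pentagonal_neg (k : ℤ)
      have h5 := two_pe k
      have h6 : (2 * (pentagonal (-(k : ℤ)) : ℤ)) = 2 * (pe k : ℤ) := by
        rw [h4]
        exact_mod_cast h5.symm
      omega
    have h7 : pentagonal ((k : ℤ) + 1) = pe k + (2 * k + 1) := by
      have h4 := two_mul_natCast_pentagonal ((k : ℤ) + 1)
      have h5 := two_pe k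
      have h5' : (2 * (pe k : ℤ)) = k * (3 * k + 1) := by exact_mod_cast h5
      have h6 : (2 * (pentagonal ((k : ℤ) + 1) : ℤ)) = 2 * ((pe k + (2 * k + 1) : ℕ) : ℤ) := by
        rw [h4]
        push_cast
        linear_combination -h5'
      omega
    rw [h3, h7, pow_add]
    ring
  rw [e] at h1
  exact h1.unique h2

end top

lemma E_penta : E = pentagonalSeries ℤ := by
  ext n
  have h := coeff_prod_one_sub_X_pow_eventually_eq ℤ n
  obtain ⟨s, hs⟩ := Filter.eventually_atTop.1 h
  obtain ⟨M, hM⟩ := s.exists_nat_subset_range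
  have h1 := hs (range (max M (n + 1))) (hM.trans (range_subset_range.2 (le_max_left _ _)))
  rw [← h1]
  have h2 := lim_dvd Em_cau (max M (n + 1))
  have h3 := (X_pow_dvd_iff.1 h2) n (lt_of_lt_of_le (Nat.lt_succ_self n) (le_max_right _ _))
  rw [map_sub] at h3
  unfold E
  have h4 := sub_eq_zero.1 h3
  rw [h4]
  rfl

/-! ### the final identity -/

/-- the series `A` -/
noncomputable def A : PS := sm (fun n => if n % 2 = 1 then X ^ pe n * (1 - X ^ (2 * n + 1)) else 0)

/-- the series `B` -/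
noncomputable def B : PS := sm (fun n => X ^ ((n + 1) * (2 * n + 1)))

lemma A_sb : Sb (fun n => if n % 2 = 1 then (X : PS) ^ pe n * (1 - X ^ (2 * n + 1)) else 0) := by
  intro n
  simp only
  split_ifs
  · exact (pow_dvd_pow X (le_pe n)).mul_right _
  · exact dvd_zero _

lemma B_sb : Sb (fun n => (X : PS) ^ ((n + 1) * (2 * n + 1))) := fun n =>
  pow_dvd_pow X (by nlinarith)

lemma F_A : F 0 0 = E + 2 * A := by
  have h : F 0 0 - E = 2 * A := by
    rw [E_penta, penta_eq, F_sum, sm_sub]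
    unfold A
    rw [sm_mul A_sb]
    refine sm_congr fun n => ?_
    rcases Nat.mod_two_eq_zero_or_one n with hn | hn
    · rw [if_neg (by omega), (Nat.even_iff.2 hn).neg_one_pow]
      ring
    · rw [if_pos hn, (Nat.odd_iff.2 hn).neg_one_pow]
      ring
  linear_combination h

lemma H_B : H (-1) 0 0 = H 1 0 0 - 2 * B := by
  have h : H 1 0 0 - H (-1) 0 0 = 2 * B := by
    rw [H_sum 1 (by ring), H_sum (-1) (by ring), sm_sub]
    unfold B
    rw [sm_mul B_sb]
    refine sm_congr fun n => ?_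
    rw [show (n + 1) * (2 * n + 1) = n * (2 * n + 1) + (2 * n + 1) by ring, pow_add]
    ring
  linear_combination -h

theorem main_AB : X * TT 0 = P * P * A + B := by
  have h := main_id 0
  rw [W_eq, F_A, H_B] at h
  have h2 : (2 : PS) * (X * TT 0) = 2 * (P * P * A + B) := by
    linear_combination h + gauss
  have h3 : (2 : PS) ≠ 0 := by
    intro h0
    have := congrArg (coeff 0) h0
    rw [map_zero, show (2 : PS) = C (2 : ℤ) by rfl, coeff_zero_C] at this
    norm_num at this
  exact mul_left_cancel₀ h3 h2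

end Pool.Agent.H381_TO
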