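import Pool.Agent.H381_TO.Fin

/-!
Parity of the coefficients.
-/

set_option autoImplicit false

namespace Pool.Agent.H381_TO

open PowerSeries Finset

/-- all coefficients even -/
def Ev (a : PS) : Prop := ∀ n, (2 : ℤ) ∣ coeff n a

lemma Ev.mul {a : PS} (h : Ev a) (b : PS) : Ev (a * b) := by
  intro n
  rw [coeff_mul]
  exact dvd_sum fun p _ => (h p.1).mul_right _

lemma Ev.add {a b : PS} (h : Ev a) (h' : Ev b) : Ev (a + b) := by
  intro n
  rw [map_add]
  exact dvd_add (h n) (h' n)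

lemma PE_ev (k : ℕ) : Ev (Pm k - Em k) := by
  induction k with
  | zero =>
    intro n
    simp [Pm, Em]
  | succ k ih =>
    have e : Pm (k + 1) - Em (k + 1) = (Pm k - Em k) * (1 + X ^ (k + 1)) +
        2 * (X ^ (k + 1) * Em k) := by
      rw [Pm_succ, Em_succ]
      ring
    rw [e]
    refine (ih.mul _).add fun n => ?_
    rw [two_mul, map_add, ← two_mul]
    exact dvd_mul_right _ _

lemma PE_ev_lim : Ev (P - E) := by
  intro n
  have h := PE_ev (n + 1) n
  rw [map_sub] at h ⊢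
  unfold P E lim
  rw [coeff_mk, coeff_mk]
  exact h

lemma PP_EE : Ev (P * P - E * E) := by
  have e : P * P - E * E = (P - E) * (P + E) := by ring
  rw [e]
  exact PE_ev_lim.mul _

/-- odd coefficients of a square -/
lemma odd_sq (a : PS) (i : ℕ) (h : ¬ (2 : ℤ) ∣ coeff i (a * a)) :
    ∃ c, i = 2 * c ∧ ¬ (2 : ℤ) ∣ coeff c a := by
  by_contra hcon
  push Not at hcon
  apply h
  have key : ((coeff i (a * a) : ℤ) : ZMod 2) = 0 := by
    rw [coeff_mul]
    push_cast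
    refine sum_involution (fun p _ => (p.2, p.1)) ?_ ?_ ?_ ?_
    · intro p _
      have : (((coeff p.1 a : ℤ) : ZMod 2) * ((coeff p.2 a : ℤ) : ZMod 2) +
        ((coeff p.2 a : ℤ) : ZMod 2) * ((coeff p.1 a : ℤ) : ZMod 2)) =
        2 * (((coeff p.1 a : ℤ) : ZMod 2) * ((coeff p.2 a : ℤ) : ZMod 2)) := by ring
      rw [this, show (2 : ZMod 2) = 0 by rfl, zero_mul]
    · intro p hp hne heq
      have h1 : p.2 = p.1 := congrArg Prod.fst heq
      rw [HasAntidiagonal.mem_antidiagonal] at hp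
      have h2 := hcon p.1 (by omega)
      apply hne
      rw [(ZMod.intCast_zmod_eq_zero_iff_dvd (coeff p.1 a) 2).2 (by exact_mod_cast h2), zero_mul]
    · intro p hp
      rw [HasAntidiagonal.mem_antidiagonal] at hp ⊢
      omega
    · intro p _
      rfl
  have := (ZMod.intCast_zmod_eq_zero_iff_dvd (coeff i (a * a)) 2).1 key
  exact_mod_cast this

lemma odd_PP (i : ℕ) (h : ¬ (2 : ℤ) ∣ coeff i (P * P)) :
    ∃ k : ℤ, 12 * (i : ℤ) + 1 = (6 * k - 1) ^ 2 := by
  have h1 : ¬ (2 : ℤ) ∣ coeff i (E * E) := by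
    intro hc
    apply h
    have := dvd_add (PP_EE i) hc
    rwa [map_sub, sub_add_cancel] at this
  obtain ⟨c, hc, h2⟩ := odd_sq E i h1
  rw [E_penta] at h2
  have h3 : c ∈ Set.range pentagonal := by
    by_contra hn
    apply h2
    rw [coeff_pentagonalSeries_eq_zero ℤ hn]
    exact dvd_zero _
  obtain ⟨k, hk⟩ := h3
  refine ⟨k, ?_⟩
  have h4 := two_mul_natCast_pentagonal k
  rw [hk] at h4
  rw [hc]
  push_cast
  linear_combination 12 * h4

lemma A_exp (j : ℕ) (h : coeff j A ≠ 0) :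
    ∃ M : ℤ, 24 * (j : ℤ) + 1 = M ^ 2 ∧ (M % 3 = 1 ∨ M % 3 = 2) := by
  unfold A at h
  rw [coeff_sm] at h
  obtain ⟨n, -, hn⟩ := exists_ne_zero_of_sum_ne_zero h
  have h5 : (2 * (pe n : ℤ)) = n * (3 * n + 1) := by exact_mod_cast two_pe n
  by_cases hodd : n % 2 = 1
  · rw [if_pos hodd, mul_sub, mul_one, ← pow_add, map_sub, coeff_X_pow, coeff_X_pow] at hn
    by_cases h1 : j = pe n
    · refine ⟨6 * n + 1, ?_, by omega⟩
      rw [h1]
      linear_combination 12 * h5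
    · by_cases h2 : j = pe n + (2 * n + 1)
      · refine ⟨6 * n + 5, ?_, by omega⟩
        rw [h2]
        push_cast
        linear_combination 12 * h5
      · rw [if_neg h1, if_neg h2] at hn
        exact absurd rfl hn
  · rw [if_neg hodd, map_zero] at hn
    exact absurd rfl hn

lemma B_exp (j : ℕ) (h : coeff j B ≠ 0) : ∃ M : ℤ, 8 * (j : ℤ) + 1 = M ^ 2 := by
  unfold B at h
  rw [coeff_sm] at h
  obtain ⟨n, -, hn⟩ := exists_ne_zero_of_sum_ne_zero h
  rw [coeff_X_pow] at hn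
  by_cases h1 : j = (n + 1) * (2 * n + 1)
  · refine ⟨4 * n + 3, ?_⟩
    rw [h1]
    push_cast
    ring
  · rw [if_neg h1] at hn
    exact absurd rfl hn

/-- composition with `3 = 1 + 2` -/
lemma rep_of_three (K M L : ℤ) (hM : M % 3 = 1 ∨ M % 3 = 2) (hL : L % 3 = 1 ∨ L % 3 = 2)
    (h : 3 * K = M ^ 2 + 2 * L ^ 2) : ∃ x y : ℤ, K = x ^ 2 + 2 * y ^ 2 := by
  have key : ∀ L : ℤ, (M - L) % 3 = 0 → 3 * K = M ^ 2 + 2 * L ^ 2 →
      ∃ x y : ℤ, K = x ^ 2 + 2 * y ^ 2 := by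
    intro L hL h
    obtain ⟨y, hy⟩ : ∃ y, M - L = 3 * y := Int.dvd_of_emod_eq_zero hL
    refine ⟨L + y, y, ?_⟩
    have hM' : M = L + 3 * y := by linarith
    rw [hM'] at h
    have : 3 * K = 3 * ((L + y) ^ 2 + 2 * y ^ 2) := by
      rw [h]
      ring
    linarith
  by_cases h1 : (M - L) % 3 = 0
  · exact key L h1 h
  · exact key (-L) (by omega) (by rw [h]; ring)

/-- parity of the coefficients of `TT 0` -/
theorem parity (n : ℕ) (h : ¬ ∃ x y : ℤ, (8 * n + 9 : ℤ) = x ^ 2 + 2 * y ^ 2) :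
    (2 : ℤ) ∣ coeff n (TT 0) := by
  have h1 : coeff n (TT 0) = coeff (n + 1) (P * P * A + B) := by
    rw [← main_AB, coeff_succ_X_mul]
  have hB : coeff (n + 1) B = 0 := by
    by_contra hc
    obtain ⟨M, hM⟩ := B_exp (n + 1) hc
    apply h
    refine ⟨M, 0, ?_⟩
    rw [← hM]
    push_cast
    ring
  rw [h1, map_add, hB, add_zero, coeff_mul]
  refine dvd_sum fun p hp => ?_
  rw [HasAntidiagonal.mem_antidiagonal] at hp
  by_contra hc
  have h2 : ¬ (2 : ℤ) ∣ coeff p.1 (P * P) := fun hd => hc (hd.mul_right _)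
  have h3 : coeff p.2 A ≠ 0 := by
    intro h0
    apply hc
    rw [h0, mul_zero]
    exact dvd_zero _
  obtain ⟨k, hk⟩ := odd_PP p.1 h2
  obtain ⟨M, hM, hM3⟩ := A_exp p.2 h3
  apply h
  refine rep_of_three _ M (6 * k - 1) hM3 (by omega) ?_
  have h4 : (p.1 : ℤ) + p.2 = n + 1 := by exact_mod_cast hp
  linear_combination hM + 2 * hk - 24 * h4

/-- the `m`-th term of the series -/
noncomputable def toTerm (m : ℕ) : PS :=
  X ^ (2 * m) * (∏ k ∈ range (2 * m), (1 + X ^ (k + 1))) *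
    invOfUnit (∏ k ∈ range (m + 1), (1 - X ^ (2 * k + 1))) 1

lemma toTerm_eq (m : ℕ) : toTerm m = tt 0 m := by
  have hO : (∏ k ∈ range (m + 1), (1 - (X : PS) ^ (2 * k + 1))) = Om (m + 1) := rfl
  have hP : (∏ k ∈ range (2 * m), (1 + (X : PS) ^ (k + 1))) = Pm (2 * m) := rfl
  have hc : ∀ k, constantCoeff (Om k) = 1 := by
    intro k
    unfold Om
    rw [map_prod]
    refine prod_eq_one fun i _ => ?_
    simp
  have h1 : Om (m + 1) * invOfUnit (Om (m + 1)) 1 = 1 := mul_invOfUnit _ _ (by rw [hc]; rfl)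
  have h2 := gi_mul 1 (n := 2 * m + 1) (by omega)
  have h3 := eO_P m
  unfold toTerm tt
  rw [hO, hP, ← h3]
  have h4 : ee 0 m * Om m = (ee 0 m * gi 1 (2 * m + 1)) * Om (m + 1) := by
    rw [Om_succ]
    linear_combination (-(ee 0 m * Om m)) * h2
  rw [h4]
  linear_combination X ^ (2 * m) * (ee 0 m * gi 1 (2 * m + 1)) * h1

lemma coeff_toTerm (n m : ℕ) (h : n < m) : coeff n (toTerm m) = 0 := by
  rw [toTerm_eq]
  exact (X_pow_dvd_iff.1 (tt_sb 0 m)) n h

end Pool.Agent.H381_TO
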