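import Pool.Agent.H381_TO.Fam

/-!
The series `T_o`, the identity `2 q T_o = (-q;q)^2 F(0,0) - H(0,0)`, and products.
-/

set_option autoImplicit false

namespace Pool.Agent.H381_TO

open PowerSeries Finset

/-! ### the family `TT` -/

/-- finite products -/
noncomputable def ee (j m : ℕ) : PS :=
  ∏ i ∈ range m, ((1 + X ^ (2 * i + 1)) * (1 + X ^ (2 * j + 2 + 2 * i)) * gi 1 (2 * i + 1))

lemma ee_zero (j : ℕ) : ee j 0 = 1 := rfl

lemma ee_succ (j m : ℕ) : ee j (m + 1) =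
    ee j m * ((1 + X ^ (2 * m + 1)) * (1 + X ^ (2 * j + 2 + 2 * m)) * gi 1 (2 * m + 1)) := by
  unfold ee
  rw [prod_range_succ]

lemma ee_shift (j m : ℕ) : (1 + X ^ (2 * j + 2)) * ee (j + 1) m =
    ee j m * (1 + X ^ (2 * j + 2 + 2 * m)) := by
  induction m with
  | zero => rw [ee_zero, ee_zero, mul_one, one_mul, mul_zero, add_zero]
  | succ m ih =>
    rw [ee_succ, ee_succ, ← mul_assoc, ih, show 2 * (j + 1) + 2 + 2 * m = 2 * j + 2 + 2 * (m + 1) by ring]
    ring

lemma ee_diff (j m : ℕ) : ee j (m + 1) - ee j m = ee j m * gi 1 (2 * m + 1) * X ^ (2 * m) *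
    (2 * X + X ^ (2 * j + 2) + X * X ^ (2 * j + 2 + 2 * m)) := by
  have h := gi_mul 1 (n := 2 * m + 1) (by omega)
  rw [ee_succ]
  have p1 : (X : PS) ^ (2 * m + 1) = X ^ (2 * m) * X := pow_succ _ _
  have p2 : (X : PS) ^ (2 * j + 2 + 2 * m) = X ^ (2 * j + 2) * X ^ (2 * m) := pow_add _ _ _
  rw [p2]
  rw [p1] at h ⊢
  linear_combination ee j m * h

lemma ee_cau (j : ℕ) : Cau (ee j) := by
  intro k
  rw [ee_diff]
  exact ((pow_dvd_pow X (by omega : k ≤ 2 * k)).mul_left _).mul_right _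

/-- the terms of `TT` -/
noncomputable def tt (j m : ℕ) : PS := X ^ (2 * m) * (ee j m * gi 1 (2 * m + 1))

/-- the family `TT` -/
noncomputable def TT (j : ℕ) : PS := sm (tt j)

lemma tt_sb (j : ℕ) : Sb (tt j) := fun m => (pow_dvd_pow X (by omega : m ≤ 2 * m)).mul_right _

/-- the limits of the products -/
noncomputable def Ei (j : ℕ) : PS := lim (ee j)

lemma Ei_shift (j : ℕ) : (1 + X ^ (2 * j + 2)) * Ei (j + 1) = Ei j := by
  refine lim_eq (ee_cau j) fun k => ?_
  have h1 := (lim_dvd (ee_cau (j + 1)) k).mul_left (1 + X ^ (2 * j + 2))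
  rw [mul_sub, ee_shift] at h1
  have h2 : (X : PS) ^ k ∣ ee j k * X ^ (2 * j + 2 + 2 * k) :=
    (pow_dvd_pow X (by omega)).mul_left _
  have h3 := dvd_add h1 h2
  have e : (1 + X ^ (2 * j + 2)) * lim (ee (j + 1)) - ee j k * (1 + X ^ (2 * j + 2 + 2 * k)) +
      ee j k * X ^ (2 * j + 2 + 2 * k) = (1 + X ^ (2 * j + 2)) * Ei (j + 1) - ee j k := by
    unfold Ei
    ring
  rwa [e] at h3

lemma TT_rec (j : ℕ) : (X + X ^ (2 * j + 2)) * TT j + X * (1 + X ^ (2 * j + 2)) * TT (j + 1) =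
    Ei j - 1 := by
  have h1 : (X + X ^ (2 * j + 2)) * TT j + X * (1 + X ^ (2 * j + 2)) * TT (j + 1) =
      sm (fun m => ee j (m + 1) - ee j m) := by
    unfold TT
    rw [sm_mul (tt_sb j), sm_lin (tt_sb (j + 1))]
    refine sm_congr fun m => ?_
    rw [ee_diff]
    unfold tt
    linear_combination X * X ^ (2 * m) * gi 1 (2 * m + 1) * ee_shift j m
  rw [h1]
  symm
  refine sm_eq (ee_cau j) fun k => ?_
  rw [sum_range_sub, ee_zero, sub_sub_sub_cancel_right]
  exact lim_dvd (ee_cau j) k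

/-! ### convergence in `j` -/

/-- the limit of the products `ee` -/
noncomputable def eo (m : ℕ) : PS := ∏ i ∈ range m, ((1 + X ^ (2 * i + 1)) * gi 1 (2 * i + 1))

lemma ee_eo (j m : ℕ) : (X : PS) ^ j ∣ ee j m - eo m := by
  induction m with
  | zero => simp [ee_zero, eo]
  | succ m ih =>
    rw [ee_succ]
    unfold eo at *
    rw [prod_range_succ]
    refine dvd_mul_sub ih ?_
    have e : (1 + X ^ (2 * m + 1)) * (1 + X ^ (2 * j + 2 + 2 * m)) * gi 1 (2 * m + 1) -
        (1 + X ^ (2 * m + 1)) * gi 1 (2 * m + 1) =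
        X ^ (2 * j + 2 + 2 * m) * ((1 + X ^ (2 * m + 1)) * gi 1 (2 * m + 1)) := by ring
    rw [e]
    exact (pow_dvd_pow X (by omega)).mul_right _

lemma TT_cv : CV TT := by
  refine ⟨sm (fun m => X ^ (2 * m) * (eo m * gi 1 (2 * m + 1))), fun j => sm_small j fun m => ?_⟩
  unfold tt
  rw [← mul_sub, ← sub_mul]
  exact ((ee_eo j m).mul_right _).mul_left _

lemma Ei_cv : CV Ei := ⟨lim eo, fun j => lim_small j fun k => ee_eo j k⟩

lemma F_cv : CV (F 0) := by
  refine ⟨sm (fun k => if k = 0 then 1 else 0), fun j => sm_small j fun k => ?_⟩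
  rcases Nat.eq_zero_or_pos k with rfl | hk
  · rw [ft_zero, if_pos rfl, sub_self]
    exact dvd_zero _
  · rw [if_neg (by omega), sub_zero]
    unfold ft
    rw [mul_assoc]
    exact ((pow_dvd_pow X (by nlinarith : j ≤ (2 * j + 1) * k)).mul_right _).mul_left _

lemma H_cv (e : PS) : CV (H e 0) := by
  refine ⟨sm (fun k => if k = 0 then 1 else 0), fun j => sm_small j fun k => ?_⟩
  rcases Nat.eq_zero_or_pos k with rfl | hk
  · rw [ht_zero, if_pos rfl, sub_self]
    exact dvd_zero _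
  · rw [if_neg (by omega), sub_zero]
    unfold ht
    rw [mul_assoc]
    exact ((pow_dvd_pow X (by nlinarith : j ≤ (2 * j + 1) * k)).mul_right _).mul_left _

/-! ### the main identity -/

theorem main_id (j : ℕ) : 2 * X * TT j = Ei j * F 0 j - H (-1) 0 j := by
  have hcv : CV (fun j => 2 * X * TT j + (-1) * (Ei j * F 0 j) + H (-1) 0 j) :=
    (((CV.const (2 * X)).mul TT_cv).add ((CV.const (-1)).mul (Ei_cv.mul F_cv))).add (H_cv (-1))
  have := alt_zero hcv (fun j => by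
    have h1 := TT_rec j
    have h2 := Ei_shift j
    have h3 := F_a 0 j
    have h4 := H_c (-1) 0 j
    have p1 : (X : PS) ^ (2 * j + 2) = X ^ (2 * j + 1) * X := pow_succ _ _
    simp only [mul_zero, pow_zero, zero_add, pow_one] at h3 h4
    rw [p1] at h1 h2 ⊢
    linear_combination 2 * h1 + F 0 (j + 1) * (-h2) - Ei j * h3 + h4) j
  linear_combination this

end Pool.Agent.H381_TO
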